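import Mathlib

/-!
# PROJECT CC : coupling constants of Kadison-Kastler close II₁ factors (MP_41729c_an)

All statements (Props) of the modules, with complete proofs in the docstrings. Module `XXX` is:
a file `Pool/Agent/D0Hn/CC/Xxx.lean` with `theorem Pool.Agent.D0Hn.CC.xxx : S_AAA → ... → S_XXX`.
Everything in `Type`; only Mathlib is needed (library facts enter as the hypotheses `S_ULIM`,
`S_GEN`, `S_CMP`, `S_NEARC`, proved by helper45 from `H710R2.DP`).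

Useful in Mathlib: `VonNeumannAlgebra.commutant`, `VonNeumannAlgebra.mem_commutant_iff`
(`z ∈ S.commutant ↔ ∀ g ∈ S, g * z = z * g`), `VonNeumannAlgebra.commutant_commutant`; so to show
`x ∈ N` show that `x` commutes with all `z ∈ N.commutant`. All the subring lemmas (`mul_mem`, ...)
work for `M : VonNeumannAlgebra H`.
-/

set_option autoImplicit false

open scoped ComplexOrder InnerProductSpace ENNReal
open Filter

noncomputable section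

namespace Pool.Agent.D0H45.CC

section defs

variable {H : Type} [NormedAddCommGroup H] [InnerProductSpace ℂ H] [CompleteSpace H]

/-- `p` is an orthogonal projection. -/
def Prj (p : H →L[ℂ] H) : Prop := star p = p ∧ p * p = p

/-- `τ` is (on `M`) a faithful normal tracial state of `M`. -/
structure IsTrace (M : VonNeumannAlgebra H) (τ : (H →L[ℂ] H) → ℂ) : Prop where
  normal : ∃ ζ : ℕ → H, Summable (fun n => ‖ζ n‖ ^ 2) ∧ ∀ x ∈ M, τ x = ∑' n, ⟪ζ n, x (ζ n)⟫_ℂ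
  unit : τ 1 = 1
  tracial : ∀ x ∈ M, ∀ y ∈ M, τ (x * y) = τ (y * x)
  faithful : ∀ x ∈ M, τ (star x * x) = 0 → x = 0

/-- The centre of `M` is trivial. -/
def IsFactor (M : VonNeumannAlgebra H) : Prop :=
  ∀ z ∈ M, (∀ x ∈ M, z * x = x * z) → ∃ c : ℂ, z = c • (1 : H →L[ℂ] H)

/-- There are no minimal projections in `M`. -/
def NoMin (M : VonNeumannAlgebra H) : Prop :=
  ∀ p ∈ M, Prj p → p ≠ 0 → ∃ q ∈ M, Prj q ∧ p * q = q ∧ q ≠ 0 ∧ q ≠ p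

/-- `M` is a II₁ factor. -/
structure IsII1 (M : VonNeumannAlgebra H) : Prop where
  factor : IsFactor M
  nomin : NoMin M
  trace : ∃ τ, IsTrace M τ

/-- `H ≅ ⨁ L²(M, τ) e i` as a left `M`-module, with `x ξ i` corresponding to `x e i`. -/
structure IsBasis (M : VonNeumannAlgebra H) (τ : (H →L[ℂ] H) → ℂ) {I : Type}
    (ξ : I → H) (e : I → (H →L[ℂ] H)) : Prop where
  mem : ∀ i, e i ∈ M
  prj : ∀ i, Prj (e i)
  form : ∀ i, ∀ x ∈ M, ⟪ξ i, x (ξ i)⟫_ℂ = τ (x * e i)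
  orth : ∀ i j, i ≠ j → ∀ x ∈ M, ⟪ξ j, x (ξ i)⟫_ℂ = 0
  dense : ∀ η : H, (∀ i, ∀ x ∈ M, ⟪x (ξ i), η⟫_ℂ = 0) → η = 0

/-- `dim_M(H) = d`. -/
def IsDim (M : VonNeumannAlgebra H) (d : ℝ≥0∞) : Prop :=
  ∃ τ, IsTrace M τ ∧ ∃ (I : Type) (ξ : I → H) (e : I → (H →L[ℂ] H)), IsBasis M τ ξ e ∧
    d = ∑' i, ENNReal.ofReal (τ (e i)).re

/-- Every `x ∈ M` has distance at most `γ ‖x‖` from `N`. -/
def Near (M N : VonNeumannAlgebra H) (γ : ℝ) : Prop := ∀ x ∈ M, ∃ y ∈ N, ‖x - y‖ ≤ γ * ‖x‖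

/-- The Kadison-Kastler distance: the Hausdorff distance of the closed unit balls. -/
def kk (M N : VonNeumannAlgebra H) : ℝ :=
  Metric.hausdorffDist {x : H →L[ℂ] H | x ∈ M ∧ ‖x‖ ≤ 1} {x : H →L[ℂ] H | x ∈ N ∧ ‖x‖ ≤ 1}

/-- A commutative group of symmetries. -/
structure SymGrp (S : Set (H →L[ℂ] H)) : Prop where
  one : (1 : H →L[ℂ] H) ∈ S
  mul : ∀ a ∈ S, ∀ b ∈ S, a * b ∈ S
  comm : ∀ a ∈ S, ∀ b ∈ S, a * b = b * a
  adj : ∀ a ∈ S, star a = a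
  sq : ∀ a ∈ S, a * a = 1

/-- The set of all symmetries in `A`. -/
def syms (A : VonNeumannAlgebra H) : Set (H →L[ℂ] H) := {s | s ∈ A ∧ star s = s ∧ s * s = 1}

/-- `I` is an invariant mean for bounded operator valued functions on `S`. -/
structure IsMean (S : Set (H →L[ℂ] H)) (I : ((H →L[ℂ] H) → (H →L[ℂ] H)) → (H →L[ℂ] H)) :
    Prop where
  congr : ∀ F F' : (H →L[ℂ] H) → (H →L[ℂ] H), (∀ g ∈ S, F g = F' g) → I F = I F'
  bound : ∀ (F : (H →L[ℂ] H) → (H →L[ℂ] H)) (C : ℝ), (∀ g ∈ S, ‖F g‖ ≤ C) → ‖I F‖ ≤ C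
  add : ∀ (F F' : (H →L[ℂ] H) → (H →L[ℂ] H)) (C : ℝ), (∀ g ∈ S, ‖F g‖ ≤ C) →
    (∀ g ∈ S, ‖F' g‖ ≤ C) → I (fun g => F g + F' g) = I F + I F'
  mul : ∀ (F : (H →L[ℂ] H) → (H →L[ℂ] H)) (C : ℝ) (a b : H →L[ℂ] H), (∀ g ∈ S, ‖F g‖ ≤ C) →
    I (fun g => a * F g * b) = a * I F * b
  const : ∀ a : H →L[ℂ] H, I (fun _ => a) = a
  shift : ∀ (F : (H →L[ℂ] H) → (H →L[ℂ] H)) (C : ℝ), ∀ h ∈ S, (∀ g ∈ S, ‖F g‖ ≤ C) →
    I (fun g => F (g * h)) = I F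
  adj : ∀ (F : (H →L[ℂ] H) → (H →L[ℂ] H)) (C : ℝ), (∀ g ∈ S, ‖F g‖ ≤ C) →
    I (fun g => star (F g)) = star (I F)
  vec : ∀ (F : (H →L[ℂ] H) → (H →L[ℂ] H)) (C : ℝ) (α β : ℕ → H) (c : ℂ),
    (∀ g ∈ S, ‖F g‖ ≤ C) → Summable (fun n => ‖α n‖ ^ 2) → Summable (fun n => ‖β n‖ ^ 2) →
    (∀ g ∈ S, ∑' n, ⟪α n, F g (β n)⟫_ℂ = c) → ∑' n, ⟪α n, I F (β n)⟫_ℂ = c

/-- `A` is a maximal abelian subalgebra of `M`. -/
structure IsMasa (A M : VonNeumannAlgebra H) : Prop where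
  sub : ∀ a ∈ A, a ∈ M
  comm : ∀ a ∈ A, ∀ b ∈ A, a * b = b * a
  max : ∀ x ∈ M, (∀ a ∈ A, a * x = x * a) → x ∈ A

end defs

/-! ## Library facts (helper45) -/

/-- (helper45, library `dp_ulim`) Weak operator limits of bounded families along ultrafilters. -/
def S_ULIM : Prop :=
  ∀ (H : Type) [NormedAddCommGroup H] [InnerProductSpace ℂ H] [CompleteSpace H]
    (I : Type) (U : Ultrafilter I) (T : I → (H →L[ℂ] H)) (d : ℝ), (∀ i, ‖T i‖ ≤ d) →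
    ∃ S : H →L[ℂ] H, ‖S‖ ≤ d ∧ ∀ ξ η : H,
      Tendsto (fun i => ⟪η, T i ξ⟫_ℂ) U (nhds ⟪η, S ξ⟫_ℂ)

/-- (helper45, library) Every element of a von Neumann algebra is a norm limit of linear
combinations of projections of the algebra; if `x = star x` one can take projections which commute
with everything that commutes with `x`. -/
def S_GEN : Prop :=
  ∀ (H : Type) [NormedAddCommGroup H] [InnerProductSpace ℂ H] [CompleteSpace H]
    (A : VonNeumannAlgebra H), ∀ x ∈ A, star x = x → ∀ ε : ℝ, 0 < ε →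
    ∃ (n : ℕ) (c : Fin n → ℂ) (p : Fin n → (H →L[ℂ] H)), (∀ k, p k ∈ A ∧ Prj (p k)) ∧
      (∀ k, ∀ y : H →L[ℂ] H, y * x = x * y → y * p k = p k * y) ∧ ‖x - ∑ k, c k • p k‖ ≤ ε

/-- (helper45, library) Comparison of projections in a factor. -/
def S_CMP : Prop :=
  ∀ (H : Type) [NormedAddCommGroup H] [InnerProductSpace ℂ H] [CompleteSpace H]
    (M : VonNeumannAlgebra H), IsFactor M → ∀ p ∈ M, ∀ q ∈ M, Prj p → Prj q →
    ∃ v ∈ M, (star v * v = p ∧ q * v = v) ∨ (v * star v = q ∧ v * p = v)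

/-- (helper45, library: the derivation theorem with a universal constant) If `M` is near `N` then
the commutant of `N` is near the commutant of `M`. -/
def S_NEARC : Prop :=
  ∃ K : ℝ, 1 ≤ K ∧ ∀ (H : Type) [NormedAddCommGroup H] [InnerProductSpace ℂ H] [CompleteSpace H]
    (M N : VonNeumannAlgebra H) (γ : ℝ), 0 ≤ γ → Near M N γ →
    Near N.commutant M.commutant (K * γ)

/-! ## The modules -/

/-- **MEAN** (`S_ULIM → S_MEAN`, 150 lines). Existence of invariant means.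
Proof. Put on the subtype `S` the structure of a `CommGroup` (inverse = identity map). For a finite
set `s` of elements of `S` let `A_s(F) = 2^(-|s|) ∑_{t ⊆ s} F(∏_{x ∈ t} x)` (sum over
`s.powerset`). For `h ∈ s` the map `t ↦ t Δ {h}` is an involution of `s.powerset` and
`∏_{x ∈ t Δ {h}} x = (∏_{x ∈ t} x) h` as `h * h = 1`; so `A_s(F(· h)) = A_s(F)`. Let `U` be an
ultrafilter on `Finset S` that is finer than `atTop`. If `F` is bounded on `S`, let `I F` be the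
weak operator limit of `A_s(F)` along `U` (`S_ULIM`), otherwise (choice) `I F = F 1`, say; to have
`congr`, define `I F` by the function `fun g : S => F g`. Every axiom follows by uniqueness of
limits: an operator `T` is determined by the numbers `⟪η, T ξ⟫`. (`bound`: the bound of `S_ULIM`
holds for the particular `T` that has been chosen for one bound; by uniqueness of the limit it holds
for every bound `C`; note `0 ≤ C` as `1 ∈ S`.)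
`vec`: let `r_n(T) = ⟪α n, T (β n)⟫`; `|r_n(T)| ≤ ‖T‖ ‖α n‖ ‖β n‖`, which is summable. For
given `ε` choose a finite set `J` of indices such that the sum over the complement is at most
`ε / C`; then `|∑' n, r_n(I F) - c| ≤ |∑_{n ∈ J} (r_n(I F) - r_n(A_s F))| + 2 ε` for all `s`
(`∑' n, r_n(A_s F) = c` since `A_s F` is a convex combination of values of `F`) and the first
term tends to `0` along `U`. -/
def S_MEAN : Prop :=
  ∀ (H : Type) [NormedAddCommGroup H] [InnerProductSpace ℂ H] [CompleteSpace H]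
    (S : Set (H →L[ℂ] H)), SymGrp S → ∃ I, IsMean S I

/-- **STEP** (`S_STEP`, 120 lines, Mathlib only). One step of the iteration that makes an almost
multiplicative map multiplicative.
`T : S → N`, `T 1 = 1`, `‖T g - g‖ ≤ 1/4`, `‖T(gh) - T(g)T(h)‖ ≤ δ`. Put (with
`inv = Ring.inverse`) `T'(h) = I(g ↦ inv(T g) * T(g h))`.
Since `‖g⁻¹ T g - 1‖ ≤ 1/4` (`g⁻¹ = g` is unitary of norm `≤ 1`), `T g` is invertible with
`‖inv (T g)‖ ≤ 4/3`, and `inv (T g) ∈ N` (it commutes with everything that commutes with `T g`).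
Let `B(g,h) = T(gh) - T(g)T(h)`, `t_g = inv(T g)`, `c(h) = I(g ↦ t_g B(g,h))`. Then `T' = T + c`,
`‖c(h)‖ ≤ 4/3 δ`, `T'(1) = 1`, `T'(h) ∈ N` (values of means of functions with values in `N` are in
`N`: they commute with `N'` by `mul` and `congr`). The identity (all products in `B(H)`)
`T(g)B(h,k) - B(gh,k) + B(g,hk) - B(g,h)T(k) = 0` gives
`B(h,k) = t_g B(gh,k) - t_g B(g,hk) + t_g B(g,h) T(k)`, and
`t_g - T(h) t_{gh} = t_g B(g,h) t_{gh}`, so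
`B(h,k) = T(h) t_{gh} B(gh,k) + t_g B(g,h) t_{gh} B(gh,k) - t_g B(g,hk) + t_g B(g,h) T(k)`.
Apply `I` in `g`; by `shift` `I(t_{gh} B(gh,k)) = c(k)` so
`B(h,k) = T(h) c(k) + E - c(hk) + c(h) T(k)` with `‖E‖ ≤ (16/9) δ²`. Hence
`T'(h)T'(k) - T'(hk) = -B(h,k) + T(h)c(k) + c(h)T(k) - c(hk) + c(h)c(k) = -E + c(h)c(k)`, of norm
at most `4 δ²`. -/
def S_STEP : Prop :=
  ∀ (H : Type) [NormedAddCommGroup H] [InnerProductSpace ℂ H] [CompleteSpace H]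
    (S : Set (H →L[ℂ] H)) (I : ((H →L[ℂ] H) → (H →L[ℂ] H)) → (H →L[ℂ] H)), SymGrp S →
    IsMean S I → ∀ (N : VonNeumannAlgebra H) (T : (H →L[ℂ] H) → (H →L[ℂ] H)) (δ : ℝ), 0 ≤ δ →
    (∀ g ∈ S, T g ∈ N) → T 1 = 1 → (∀ g ∈ S, ‖T g - g‖ ≤ 1 / 4) →
    (∀ g ∈ S, ∀ h ∈ S, ‖T (g * h) - T g * T h‖ ≤ δ) →
    ∃ T' : (H →L[ℂ] H) → (H →L[ℂ] H), (∀ g ∈ S, T' g ∈ N) ∧ T' 1 = 1 ∧
      (∀ g ∈ S, ‖T' g - T g‖ ≤ 2 * δ) ∧
      ∀ g ∈ S, ∀ h ∈ S, ‖T' (g * h) - T' g * T' h‖ ≤ 4 * δ ^ 2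

/-- **ITER** (`S_STEP → S_ITER`, 120 lines, Mathlib only). If a group of symmetries is near `N` then
there is a homomorphism into `N` which is near the identity.
Proof. `ε ≤ 1/1000`. Choose `T₀ g ∈ N` with `‖T₀ g - g‖ ≤ ε`, `T₀ 1 = 1`. Then the defect is
`≤ 4 ε =: δ₀` (`T(gh) - T(g)T(h) = (T(gh) - gh) - (T g - g) h - T(g)(T h - h)`,
`‖T g‖ ≤ 1 + ε`). Iterate `S_STEP`: `δ_{n+1} = 4 δ_n²`, so `δ_n ≤ δ₀ / 4^n`, and
`‖T_{n+1} g - T_n g‖ ≤ 2 δ_n`; `‖T_n g - g‖ ≤ ε + 8 δ₀ ≤ 1/4` always (so the iteration goes on; do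
the recursion with a subtype of pairs, or prove by induction that for every `n` there is a `T` with
given properties extending ... ; e.g. use `Nat.rec` on the sigma type). The limit `V g = lim T_n g`
exists (Cauchy, `cauchySeq_of_le_geometric`), lies in `N` (`N` is norm closed: it is a commutant), is
multiplicative, and `‖V g - g‖ ≤ ε + 2 δ₀ (1 + 1/4 + ...) ≤ 20 ε`. -/
def S_ITER : Prop :=
  ∀ (H : Type) [NormedAddCommGroup H] [InnerProductSpace ℂ H] [CompleteSpace H]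
    (S : Set (H →L[ℂ] H)) (I : ((H →L[ℂ] H) → (H →L[ℂ] H)) → (H →L[ℂ] H)), SymGrp S →
    IsMean S I → ∀ (N : VonNeumannAlgebra H) (ε : ℝ), 0 ≤ ε → ε ≤ 1 / 1000 →
    (∀ g ∈ S, ∃ y ∈ N, ‖g - y‖ ≤ ε) →
    ∃ V : (H →L[ℂ] H) → (H →L[ℂ] H), (∀ g ∈ S, V g ∈ N) ∧ V 1 = 1 ∧
      (∀ g ∈ S, ∀ h ∈ S, V (g * h) = V g * V h) ∧ ∀ g ∈ S, ‖V g - g‖ ≤ 20 * ε

/-- **SQRT** (`S_SQRT`, 60 lines, Mathlib only). Square roots near `1`.
Proof: `0 ≤ x` and `1/2 ≤ x ≤ 3/2` (spectrum); `b = CFC.sqrt x` (or `cfc Real.sqrt x`);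
`|√t - 1| ≤ |t - 1|`, `|1/√t - 1| ≤ 2 |t - 1|` on `[1/2, 3/2]`; `b' = cfc (fun t => (√t)⁻¹) x`.
Commutation: `Commute.cfc` and its relatives. -/
def S_SQRT : Prop :=
  ∀ (H : Type) [NormedAddCommGroup H] [InnerProductSpace ℂ H] [CompleteSpace H]
    (x : H →L[ℂ] H) (η : ℝ), star x = x → ‖x - 1‖ ≤ η → η ≤ 1 / 2 →
    ∃ b b' : H →L[ℂ] H, star b = b ∧ star b' = b' ∧ b * b = x ∧ b * b' = 1 ∧ b' * b = 1 ∧
      ‖b - 1‖ ≤ η ∧ ‖b' - 1‖ ≤ 2 * η ∧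
      ∀ z : H →L[ℂ] H, z * x = x * z → z * b = b * z ∧ z * b' = b' * z

/-- **POL** (`S_SQRT → S_POL`, 150 lines, Mathlib only). From a homomorphism `V` into `N` near the
identity to a unitary.
Proof. `s = I(g ↦ V g * g)`, `‖s - 1‖ ≤ ε` (`V g * g - 1 = (V g - g) g`). For `h ∈ S`:
`V h * s = I(V(h) V(g) g) = I(V(g h) g)`, and by `shift` (replace `g` by `g h`)
`= I(V(g h h) (g h)) = I(V(g) g h) = s * h`.
`a = I(g ↦ star (V g) * V g) ∈ N`, `star a = a`, `‖a - 1‖ ≤ 3 ε`,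
`star (V h) * a * V h = I(star (V (g h)) * V (g h)) = a`. By `S_SQRT` `a = b * b`, `b b' = 1`;
`b, b' ∈ N` (they commute with `N'` as `a` does). `W h := b * V h * b' ∈ N` satisfies
`star (W h) * W h = b' star(V h) a (V h) b' = b' a b' = 1` and `W h * W h = 1`
(`V h * V h = V 1 = 1`), so `W h` is unitary. `s₁ = b * s`: `s₁ h = W h s₁`. So
`c = star s₁ * s₁` satisfies `h c h = star (W h s₁) (W h s₁) = c`, i.e. commutes with `h`;
`‖c - 1‖ ≤ 1/2` if `ε ≤ 1/1000`. `c = k * k`, `k k' = 1` by `S_SQRT`; `k'` commutes with `h`. Put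
`u = s₁ * k'`. `star u * u = k' c k' = 1`; `u` is invertible (product of invertible elements; `s` is
invertible as `‖s - 1‖ < 1`), so `u * star u = 1`. `u h = s₁ h k' = W h u`, so
`u * h * star u = W h ∈ N`. Norms: `‖u - 1‖ ≤ 100 ε`. If `z` commutes with `S` and `N` then it
commutes with `V g ∈ N`, with `s` (`mul`, `congr`), with `a`, `b ∈ N`, with `s₁`, `star s₁` (`star z`
also commutes with `S` and `N`, which are closed under `star`), `c`, `k'`, `u`. -/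
def S_POL : Prop :=
  ∀ (H : Type) [NormedAddCommGroup H] [InnerProductSpace ℂ H] [CompleteSpace H]
    (S : Set (H →L[ℂ] H)) (I : ((H →L[ℂ] H) → (H →L[ℂ] H)) → (H →L[ℂ] H)), SymGrp S →
    IsMean S I → ∀ (N : VonNeumannAlgebra H) (ε : ℝ) (V : (H →L[ℂ] H) → (H →L[ℂ] H)),
    0 ≤ ε → ε ≤ 1 / 1000 → (∀ g ∈ S, V g ∈ N) → V 1 = 1 →
    (∀ g ∈ S, ∀ h ∈ S, V (g * h) = V g * V h) → (∀ g ∈ S, ‖V g - g‖ ≤ ε) →
    ∃ u : H →L[ℂ] H, star u * u = 1 ∧ u * star u = 1 ∧ ‖u - 1‖ ≤ 100 * ε ∧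
      (∀ g ∈ S, u * g * star u ∈ N) ∧
      ∀ z : H →L[ℂ] H, (∀ g ∈ S, z * g = g * z) → (∀ y ∈ N, z * y = y * z) → z * u = u * z

/-- **MASA** (`S_GEN → S_MASA`, 100 lines). Existence of a masa.
Proof. By Zorn there is a maximal set `P` of pairwise commuting projections of `M`. `A = M ∩ P'` is a
von Neumann algebra (the commutant of the `*`-closed set `M' ∪ P`: build the `StarSubalgebra` of all
operators commuting with `M.commutant` and `P` and check `centralizer_centralizer'`). A projection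
`q ∈ A` commutes with `P`, so `q ∈ P`; hence `q` commutes with all elements of `A`. By `S_GEN` all
selfadjoint elements of `A`, so all elements, commute with all elements of `A`. If `x ∈ M` commutes
with `A ⊇ P` then `x ∈ A`. -/
def S_MASA : Prop :=
  ∀ (H : Type) [NormedAddCommGroup H] [InnerProductSpace ℂ H] [CompleteSpace H]
    (M : VonNeumannAlgebra H), ∃ A : VonNeumannAlgebra H, IsMasa A M

/-- **EQV** (`S_CMP → S_EQV`, 80 lines). Projections with the same trace are unitarily equivalent,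
and equivalent.
Proof. `S_CMP` for `p, q`: if `star v * v = p`, `q * v = v`, then `v * star v` is a projection with
`q * (v * star v) = v * star v`, `τ (v * star v) = τ (star v * v) = τ p = τ q`, so
`τ (q - v * star v) = 0`, `q = v * star v` by faithfulness. The other case is similar. The same for
`1 - p`, `1 - q` gives `v₂`; `w = v + v₂`. -/
def S_EQV : Prop :=
  ∀ (H : Type) [NormedAddCommGroup H] [InnerProductSpace ℂ H] [CompleteSpace H]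
    (M : VonNeumannAlgebra H) (τ : (H →L[ℂ] H) → ℂ), IsFactor M → IsTrace M τ →
    ∀ p ∈ M, ∀ q ∈ M, Prj p → Prj q → (τ p).re = (τ q).re →
    (∃ v ∈ M, star v * v = p ∧ v * star v = q) ∧
    ∃ w ∈ M, star w * w = 1 ∧ w * star w = 1 ∧ w * p = q * w

/-- **LIM** (`S_ULIM → S_LIM`, 80 lines). Limits of increasing sequences of projections.
Proof. `W` = weak operator limit of `q n` along an ultrafilter finer than `atTop` on `ℕ`. As
`q m * q n = q n = q n * q m` for `n ≤ m`, `W * q n = q n`, `star W = W`, `W * W = W`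
(`⟪η, W (W ξ)⟫ = ⟪W η, W ξ⟫ = lim ⟪W η, q m ξ⟫ = lim ⟪η, W q m ξ⟫ = lim ⟪η, q m ξ⟫ = ⟪η, W ξ⟫`),
`W ∈ A` (commutes with `A'`). `⟪ζ, q m ζ⟫ = ‖q m ζ‖²` increases, so the whole sequence converges to
`⟪ζ, W ζ⟫`; for `τ x = ∑' ⟪ζ n, x (ζ n)⟫` use dominated convergence (`tendsto_tsum_of_dominated_convergence`).
`p * W = W` if `p * q n = q n` for all `n`. -/
def S_LIM : Prop :=
  ∀ (H : Type) [NormedAddCommGroup H] [InnerProductSpace ℂ H] [CompleteSpace H]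
    (A M : VonNeumannAlgebra H) (τ : (H →L[ℂ] H) → ℂ), (∀ a ∈ A, a ∈ M) → IsTrace M τ →
    ∀ (q : ℕ → (H →L[ℂ] H)) (p : H →L[ℂ] H), (∀ n, q n ∈ A ∧ Prj (q n)) →
    (∀ n, q (n + 1) * q n = q n) → (∀ n, p * q n = q n) →
    ∃ W ∈ A, Prj W ∧ (∀ n, W * q n = q n) ∧ p * W = W ∧
      Tendsto (fun n => (τ (q n)).re) atTop (nhds (τ W).re)

/-- **DIV** (`S_LIM → S_GEN → S_DIV`, 180 lines). In a masa `A` of a II₁ factor there are
projections of every trace.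
Proof. (a) If `p ≠ 0` is a projection in `A` there is a projection `q ∈ A`, `0 ≠ q ≠ p`, `p q = q`:
otherwise, let `f ∈ M` be a projection with `p f = f`. For every projection `r ∈ A` we have
`r p ∈ {0, p}`, so `r f = r p f ∈ {0, f}` and `f r = star (r f)` is the same, so `f` commutes with
all projections of `A`, hence with `A` (`S_GEN`), `f ∈ A`, so `f ∈ {0, p}`: contradiction to
`NoMin M`.
(b) So one of `q`, `p - q` has trace at most `τ(p)/2`; by induction, there are nonzero subprojections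
of `p` in `A` of trace at most `τ(p)/2^n`, so of arbitrarily small trace.
(c) Given `p ∈ A` and `0 ≤ t ≤ τ(p)`: build an increasing sequence `q n` of projections of `A`,
`q n ≤ p`, `τ (q n) ≤ t`: if `m n = sup {τ r : r ∈ A, r ≤ p - q n, τ (q n) + τ r ≤ t}` choose
such an `r` with `τ r ≥ m n / 2`, `q (n+1) = q n + r`. Let `W` be the limit (`S_LIM`): `τ W ≤ t`.
If `τ W < t` then `p - W ≠ 0` has a nonzero subprojection `r ∈ A` with `τ r ≤ t - τ W`; then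
`m n ≥ τ r` for all `n`, so `τ (q (n+1)) - τ (q n) ≥ τ r / 2`: contradiction.
(`τ r` real and `≥ 0` for projections: `τ r = ∑' ‖r ζ n‖²`; additive: `τ` is additive on `M`.) -/
def S_DIV : Prop :=
  ∀ (H : Type) [NormedAddCommGroup H] [InnerProductSpace ℂ H] [CompleteSpace H]
    (A M : VonNeumannAlgebra H) (τ : (H →L[ℂ] H) → ℂ), IsII1 M → IsTrace M τ → IsMasa A M →
    ∀ p ∈ A, Prj p → ∀ t : ℝ, 0 ≤ t → t ≤ (τ p).re →
    ∃ q ∈ A, Prj q ∧ p * q = q ∧ (τ q).re = t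

/-- **TRA** (`S_EQV → S_DIV → S_GEN → S_TRA`, 150 lines). The traces of close factors agree on a
common masa.
Proof. (a) `p, q ∈ A` projections with `τ_M p = τ_M q`. By `S_EQV` there is a unitary `w ∈ M`,
`w p = q w`. Choose `y ∈ N`, `‖y - w‖ ≤ 1/10`: `y` is invertible (`‖w* y - 1‖ < 1`), with
`‖y⁻¹‖ ≤ 10/9`, `y⁻¹ ∈ N`. `q₁ = y p y⁻¹ ∈ N` is idempotent, `τ_N q₁ = τ_N p`, and
`‖q₁ - q‖ ≤ ‖(y - w) p y⁻¹‖ + ‖w p (y⁻¹ - w*)‖ ≤ 1/9 + 1/9 + ...`, at most `1/2`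
(`y⁻¹ - w* = y⁻¹ (w - y) w*`). `z = q q₁ + (1 - q)(1 - q₁)`, `z - 1 = (2 q - 1)(q₁ - q)`, so `z` is
invertible, `z q₁ = q q₁ = q z`, `τ_N q = τ_N (z q₁ z⁻¹) = τ_N q₁ = τ_N p`.
(b) `n ≥ 1`: by `S_DIV` (repeatedly, for `1 - (p_1 + ... + p_k)`) there are orthogonal projections
`p_1, ..., p_n ∈ A`, `∑ p_i = 1`, `τ_M p_i = 1/n`; by (a) all `τ_N p_i` are equal, so `1/n`. If
`τ_M p = k/n` then by (a) `τ_N p = τ_N (p_1 + ... + p_k) = k/n`.
(c) `p` arbitrary, `k/n ≤ τ_M p`: by `S_DIV` `q ≤ p` in `A` with `τ_M q = k/n`, so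
`τ_N p ≥ τ_N q = k/n`; hence `τ_N p ≥ τ_M p` (and `≤` from `1 - p`).
(d) Selfadjoint elements by `S_GEN` (`τ` is norm continuous and linear on the algebra), then all. -/
def S_TRA : Prop :=
  ∀ (H : Type) [NormedAddCommGroup H] [InnerProductSpace ℂ H] [CompleteSpace H]
    (A M N : VonNeumannAlgebra H) (τ τ' : (H →L[ℂ] H) → ℂ), IsII1 M → IsTrace M τ →
    IsMasa A M → IsTrace N τ' → (∀ a ∈ A, a ∈ N) → Near M N (1 / 10) → ∀ a ∈ A, τ a = τ' a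

/-- **EXT** (`S_EXT`, 80 lines, Mathlib only). Operators in the commutant.
Proof. Let `K` be the closure of `{y ξ : y ∈ P}` (a closed subspace). `y ξ ↦ y ζ` is well
defined and bounded by `C` on `{y ξ}`; extend by continuity to `K` (e.g. the closure of the graph, or
`LinearMap.extend`/`ContinuousLinearMap.extend` along the dense inclusion) and by `0` on `Kᗮ`
(compose with the orthogonal projection). It commutes with `P`: on `K` by continuity; and `P` maps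
`Kᗮ` into `Kᗮ`. -/
def S_EXT : Prop :=
  ∀ (H : Type) [NormedAddCommGroup H] [InnerProductSpace ℂ H] [CompleteSpace H]
    (P : VonNeumannAlgebra H) (ξ ζ : H) (C : ℝ), 0 ≤ C → (∀ y ∈ P, ‖y ζ‖ ≤ C * ‖y ξ‖) →
    ∃ R ∈ P.commutant, (∀ y ∈ P, R (y ξ) = y ζ) ∧ ‖R‖ ≤ C ∧
      ∀ η : H, (∀ y ∈ P, ⟪y ξ, η⟫_ℂ = 0) → R η = 0

/-- **RMUL** (`S_EXT → S_RMUL`, 120 lines). Right multiplication by a symmetry `a` that commutes
with `e` on `[M ξ] ≅ L²(M) e`.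
Proof. `‖y a ξ‖² = ⟪ξ, a y* y a ξ⟫ = τ (a y* y a e) = τ (y* y a e a) = τ (y* y e) = ‖y ξ‖²`. `S_EXT`
gives `R ∈ M'`, `R y ξ = y a ξ`, `R = 0` on the complement, and (`a = 1`) the projection `P₀` onto
`[M ξ]`. `R R = P₀`, `star R = R` (both sides vanish on the complement and
`⟪R x ξ, y ξ⟫ = ⟪x a ξ, y ξ⟫ = ⟪ξ, a x* y ξ⟫ = τ (a x* y e) = τ (x* y e a) = τ (x* y a e) =
⟪x ξ, y a ξ⟫`). `g = R + 1 - P₀`. -/
def S_RMUL : Prop :=
  ∀ (H : Type) [NormedAddCommGroup H] [InnerProductSpace ℂ H] [CompleteSpace H]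
    (M : VonNeumannAlgebra H) (τ : (H →L[ℂ] H) → ℂ), IsTrace M τ → ∀ (e : H →L[ℂ] H) (ξ : H),
    e ∈ M → Prj e → (∀ x ∈ M, ⟪ξ, x ξ⟫_ℂ = τ (x * e)) →
    (∀ a ∈ M, star a = a → a * a = 1 → a * e = e * a →
      ∃ g ∈ M.commutant, star g = g ∧ g * g = 1 ∧ g ξ = a ξ ∧
        ∀ η : H, (∀ x ∈ M, ⟪x ξ, η⟫_ℂ = 0) → g η = η) ∧
    ∃ p ∈ M.commutant, Prj p ∧ p ξ = ξ ∧ ∀ η : H, (∀ x ∈ M, ⟪x ξ, η⟫_ℂ = 0) → p η = 0

/-- **MAX** (`S_MEAN → S_GEN → S_MAX`, 80 lines). A masa of `M` that lies in `N`, `N` near `M`, is a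
masa of `N`.
Proof. `syms A` is a `SymGrp`; `I` a mean. An operator that commutes with `syms A` commutes with `A`
(`S_GEN`; `2 p - 1 ∈ syms A` for projections `p`). Let `y ∈ N` commute with `A` and `x ∈ M`,
`‖y - x‖ ≤ ‖y‖ / 2`. `E = I(g ↦ g x g)` is in `M` (it commutes with `M'` by `mul`, `congr`), it
commutes with `h ∈ syms A` (`h E h = I(h g x g h) = I((g h) x (g h)) = E` by `shift`), so
`E ∈ A`; `‖E - y‖ = ‖I(g (x - y) g)‖ ≤ ‖y‖ / 2`. So every `y ∈ B := N ∩ A'` has an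
`a ∈ A` with `‖y - a‖ ≤ ‖y‖ / 2`; `y - a ∈ B` again; iterate: `y` is in the norm closure of
`A`, which is `A`. -/
def S_MAX : Prop :=
  ∀ (H : Type) [NormedAddCommGroup H] [InnerProductSpace ℂ H] [CompleteSpace H]
    (A M N : VonNeumannAlgebra H), IsMasa A M → (∀ a ∈ A, a ∈ N) → Near N M (1 / 2) →
    IsMasa A N

/-- **FORM** (`S_MEAN → S_GEN → S_FORM`, 80 lines). The trace formula passes from `M` to `N`.
Proof. Let `y ∈ N`, `I` a mean on `syms A`, `z = I(a ↦ a y a)`: `z ∈ N` and `z` commutes with `A` (as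
in MAX), so `z ∈ A`. For `a ∈ syms A` with its `g`:
`⟪ξ, a y a ξ⟫ = ⟪a ξ, y a ξ⟫ = ⟪g ξ, y g ξ⟫ = ⟪ξ, g y g ξ⟫ = ⟪ξ, y ξ⟫`. By `vec` (with
`α = β = (ξ, 0, 0, ...)`) `⟪ξ, z ξ⟫ = ⟪ξ, y ξ⟫`. Also `τ' (a y a e) = τ' (y a e a) = τ' (y e)`, so by
`vec` (with `α n = ζ n`, `β n = e (ζ n)`: `τ' (x e) = ∑' ⟪ζ n, x (e (ζ n))⟫` for `x ∈ N`)
`τ' (z e) = τ' (y e)`. Finally `⟪ξ, z ξ⟫ = τ (z e) = τ' (z e)` since `z e ∈ A`. -/
def S_FORM : Prop :=
  ∀ (H : Type) [NormedAddCommGroup H] [InnerProductSpace ℂ H] [CompleteSpace H]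
    (A M N : VonNeumannAlgebra H) (τ τ' : (H →L[ℂ] H) → ℂ), IsTrace M τ → IsTrace N τ' →
    IsMasa A M → IsMasa A N → (∀ a ∈ A, τ a = τ' a) → ∀ (e : H →L[ℂ] H) (ξ : H), e ∈ A →
    Prj e → (∀ x ∈ M, ⟪ξ, x ξ⟫_ℂ = τ (x * e)) →
    (∀ a ∈ syms A, ∃ g ∈ N.commutant, star g = g ∧ g * g = 1 ∧ g ξ = a ξ) →
    ∀ y ∈ N, ⟪ξ, y ξ⟫_ℂ = τ' (y * e)

/-- **SPAN** (`S_MEAN → S_GEN → S_EXT → S_SPAN`, 200 lines). `[M ξ] ⊆ [N ξ]`.
Here `G` is a group of symmetries in `M' ∩ N'`, `p ∈ M'` is the projection onto `[M ξ]` with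
`2 p - 1 ∈ G`, every `g ∈ G` acts on `ξ` as an element of `A`, every `a ∈ syms A` acts on `ξ` as an
element of `G`.
Proof. `p = (1 + (2p-1))/2 ∈ N'`. Let `f` be the projection onto the closure of `N ξ`: `f ∈ N'`
(`S_EXT` with `ζ = ξ`, or directly), `f p = f = p f` (`y ξ = y p ξ = p y ξ`). `f` commutes with `G`:
`g y ξ = y g ξ = y a ξ`, so `g` maps `[N ξ]` into itself. Let `b = p - f ∈ N'`, `b ξ = 0`,
`Prj b`, `b` commutes with `G`. Take `x' ∈ M'` with `‖x' - b‖ ≤ 1/4`; `x = I_G(g ↦ g x' g)`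
(`S_MEAN` for `G`): `x ∈ M'`, `x` commutes with `G`, `‖x - b‖ ≤ 1/4`. Let `ζ = x ξ`.
(1) For a finite combination `a = ∑ c_k q_k` of projections of `A` take
`R = ∑ c_k (1 + g_k)/2`, `g_k ∈ G`, `g_k ξ = (2 q_k - 1) ξ`; `R ξ = a ξ`, `R` commutes with `x`, `b`, so
`‖a ζ‖ = ‖x a ξ‖ = ‖x R ξ‖ = ‖(x - b) R ξ‖ ≤ ‖a ξ‖ / 4` since `b R ξ = R b ξ = 0`. By `S_GEN`
(selfadjoint `a`) and continuity `‖a ζ‖ ≤ ‖a ξ‖ / 4` for all selfadjoint `a ∈ A`.
(2) For `y ∈ M`: `E = I_A(a ↦ a (y* y) a) ∈ A` (as in MAX), and `⟪ξ, E ξ⟫ = ⟪ξ, y* y ξ⟫`,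
`⟪ζ, E ζ⟫ = ⟪ζ, y* y ζ⟫` by `vec`: for `a ∈ syms A` with its `g ∈ G`: `a ξ = g ξ`,
`a ζ = a x ξ = x a ξ = x g ξ = g x ξ = g ζ`, so `⟪ζ, a y* y a ζ⟫ = ⟪g ζ, y* y g ζ⟫ = ⟪ζ, y* y ζ⟫`
(`g ∈ M'`). `E ≥ 0` (or: `E` is selfadjoint with `⟪v, E v⟫ ≥ 0`), `E = c * c`, `c = star c ∈ A` (square
root; it commutes with everything that commutes with `E`), so
`‖y ζ‖² = ⟪ζ, E ζ⟫ = ‖c ζ‖² ≤ ‖c ξ‖² / 16 = ‖y ξ‖² / 16`.
(3) So `‖x y ξ‖ = ‖y ζ‖ ≤ ‖y ξ‖ / 4` for `y ∈ M`, hence `‖x v‖ ≤ ‖v‖ / 4` for all `v ∈ [M ξ]`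
(the range of `p`). If `η = p η` is orthogonal to `N ξ` then `f η = 0`, `b η = η`,
`‖η‖ = ‖b η‖ ≤ ‖x η‖ + ‖η‖ / 4 ≤ ‖η‖ / 2`, so `η = 0`. -/
def S_SPAN : Prop :=
  ∀ (H : Type) [NormedAddCommGroup H] [InnerProductSpace ℂ H] [CompleteSpace H]
    (A M N : VonNeumannAlgebra H) (G : Set (H →L[ℂ] H)) (p : H →L[ℂ] H) (ξ : H),
    IsMasa A M → IsMasa A N → SymGrp G → (∀ g ∈ G, g ∈ M.commutant ∧ g ∈ N.commutant) →
    Near N.commutant M.commutant (1 / 4) →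
    p ∈ M.commutant → Prj p → p ξ = ξ → (∀ η : H, (∀ x ∈ M, ⟪x ξ, η⟫_ℂ = 0) → p η = 0) →
    (2 : ℂ) • p - 1 ∈ G → (∀ g ∈ G, ∃ a ∈ A, g ξ = a ξ) →
    (∀ a ∈ syms A, ∃ g ∈ G, g ξ = a ξ) →
    ∀ η : H, (∀ y ∈ N, ⟪y ξ, η⟫_ℂ = 0) → p η = η → η = 0

/-- **CONJ** (`S_CONJ`, 120 lines, Mathlib only). Conjugation by a unitary: there is a von Neumann
algebra `N'` = `u* N u` (`x ∈ N' ↔ u x u* ∈ N`) with commutant `u* N' u`; II₁, traces and dimensions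
are transported (`τ' x = τ (u x u*)`, vectors `ξ ↦ u ξ`, projections `e ↦ u e u*`). -/
def S_CONJ : Prop :=
  ∀ (H : Type) [NormedAddCommGroup H] [InnerProductSpace ℂ H] [CompleteSpace H]
    (N : VonNeumannAlgebra H) (u : H →L[ℂ] H), star u * u = 1 → u * star u = 1 →
    ∃ N₁ : VonNeumannAlgebra H, (∀ x, x ∈ N₁ ↔ u * x * star u ∈ N) ∧
      (∀ x, x ∈ N₁.commutant ↔ u * x * star u ∈ N.commutant) ∧
      (IsII1 N → IsII1 N₁) ∧ (∀ d, IsDim N₁ d → IsDim N d) ∧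
      (∀ (M : VonNeumannAlgebra H) (γ κ : ℝ), 0 ≤ γ → γ ≤ 1 → ‖u - 1‖ ≤ κ → Near M N γ →
        Near M N₁ (γ + 4 * κ)) ∧
      (∀ (M : VonNeumannAlgebra H) (γ κ : ℝ), 0 ≤ γ → γ ≤ 1 → ‖u - 1‖ ≤ κ → Near N M γ →
        Near N₁ M (γ + 4 * κ))

/-- **BAS** (`S_EQV → S_BAS`, 80 lines). The projections of a basis can be taken in a masa.
Proof. By the hypothesis there are projections `f i ∈ A` with `τ (f i) = τ (e i)`; by `S_EQV`
`v i ∈ M` with `v* v = e i`, `v v* = f i`. New vectors `v i (ξ i)`: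
`⟪v ξ, x v ξ⟫ = τ (v* x v e) = τ (v* x v) = τ (x v v*) = τ (x f)` (`v e = v`); orthogonality is
clear; density: `‖(1 - e) ξ‖² = τ ((1 - e) e) = 0`, so `x ξ = x e ξ = (x v*) (v ξ)`. -/
def S_BAS : Prop :=
  ∀ (H : Type) [NormedAddCommGroup H] [InnerProductSpace ℂ H] [CompleteSpace H]
    (A M : VonNeumannAlgebra H) (τ : (H →L[ℂ] H) → ℂ) (I : Type) (ξ : I → H)
    (e : I → (H →L[ℂ] H)), IsFactor M → IsTrace M τ → IsMasa A M →
    (∀ t : ℝ, 0 ≤ t → t ≤ 1 → ∃ q ∈ A, Prj q ∧ (τ q).re = t) → IsBasis M τ ξ e →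
    ∃ (ξ' : I → H) (f : I → (H →L[ℂ] H)), IsBasis M τ ξ' f ∧ (∀ i, f i ∈ A) ∧
      ∀ i, (τ (f i)).re = (τ (e i)).re

/-- The theorem. -/
def S_MAIN : Prop :=
  ∃ δ : ℝ, 0 < δ ∧ ∀ (H : Type) [NormedAddCommGroup H] [InnerProductSpace ℂ H] [CompleteSpace H]
    (M N : VonNeumannAlgebra H), IsII1 M → IsII1 N → kk M N < δ →
    ∀ d : ℝ≥0∞, IsDim M d ↔ IsDim N d

end Pool.Agent.D0H45.CC
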